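import Pool.Agent.L7h18.BP.Stm
import Pool.Agent.L7h26.BW.Bvg

/-!
# Project BP: the windows for the characters on average (S_CH2)
-/

set_option autoImplicit false

namespace Pool.Agent.L7h97.BP

open Finset Filter MeasureTheory
open Pool.Agent.H376R2.MR (ch DP FK w)
open Pool.Agent.Q240.KS (cf sp ty ed DY zY pic)
open Pool.Agent.L7h88.BW
open Pool.Agent.L7h18.BP
open Pool.Agent.L7h26.BW (win WM measurable_win norm_win_le Wn_eq_WM prm_card)

theorem gz_le {κ : ℝ} (hκ : 0 ≤ κ) (k : ℤ) : ‖gz κ k‖ ≤ κ := by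
  unfold gz
  have h2 : (1 : ℝ) ≤ 2 * Real.pi := by
    have := Real.pi_gt_three
    linarith
  have h3 : ‖((2 : ℂ) * Real.pi)‖ = 2 * Real.pi := by
    rw [norm_mul, Complex.norm_real, Real.norm_of_nonneg Real.pi_pos.le]
    simp
  rw [norm_div, h3, div_le_iff₀ (by positivity)]
  have h4 : ‖(if k = 0 then (κ : ℂ) else (Complex.exp ((k * κ : ℝ) * Complex.I) - 1) /
      ((k : ℂ) * Complex.I))‖ ≤ κ := by
    split_ifs with h
    · rw [Complex.norm_real, Real.norm_of_nonneg hκ]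
    · have hk : 0 < |(k : ℝ)| := abs_pos.2 (by exact_mod_cast h)
      have h5 : ‖((k : ℂ) * Complex.I)‖ = |(k : ℝ)| := by
        rw [norm_mul, Complex.norm_I, mul_one]
        have : (k : ℂ) = ((k : ℝ) : ℂ) := by push_cast; rfl
        rw [this, Complex.norm_real, Real.norm_eq_abs]
      rw [norm_div, h5, div_le_iff₀ hk]
      have h6 : ‖Complex.exp ((k * κ : ℝ) * Complex.I) - 1‖ ≤ ‖((k : ℝ) * κ)‖ := by
        rw [mul_comm]
        exact Real.norm_exp_I_mul_ofReal_sub_one_le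
      refine h6.trans (le_of_eq ?_)
      rw [norm_mul, Real.norm_eq_abs, Real.norm_of_nonneg hκ, mul_comm]
  nlinarith [norm_nonneg (if k = 0 then (κ : ℂ) else (Complex.exp ((k * κ : ℝ) * Complex.I) - 1) /
      ((k : ℂ) * Complex.I))]

theorem NW_le {f : ℕ} (χ : DirichletCharacter ℂ f) (ε Y : ℝ) {κ : ℝ} (hκ : 0 ≤ κ) (u : ℝ) :
    ‖NW χ ε Y κ u‖ ≤ κ * ∑ k ∈ FK (Kc Y + 1), ‖AN χ ε Y k‖ := by
  unfold NW
  refine (norm_sum_le _ _).trans ?_
  rw [Finset.mul_sum]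
  refine Finset.sum_le_sum fun k _ => ?_
  rw [norm_mul, norm_mul, Complex.norm_exp_ofReal_mul_I, mul_one]
  exact mul_le_mul_of_nonneg_right (gz_le hκ k) (norm_nonneg _)

theorem NW_cont {f : ℕ} (χ : DirichletCharacter ℂ f) (ε Y κ : ℝ) :
    Continuous (fun u => NW χ ε Y κ u) := by
  unfold NW
  refine continuous_finsetSum _ fun k _ => ?_
  fun_prop

theorem WM_meas {f : ℕ} (χ : DirichletCharacter ℂ f) (κ : ℝ) (M : ℕ) :
    Measurable (fun u => WM χ κ M u) := measurable_win _ κ M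

theorem WM_intble {f : ℕ} (χ : DirichletCharacter ℂ f) (κ : ℝ) (M : ℕ) (a b : ℝ) :
    IntervalIntegrable (fun u => WM χ κ M u) volume a b := by
  refine (intervalIntegrable_const (c := ∑ n ∈ Icc 1 M,
    ‖((ArithmeticFunction.vonMangoldt n / n : ℝ) : ℂ) * χ (n : ZMod f)‖)).mono_fun
    (WM_meas χ κ M).aestronglyMeasurable ?_
  refine Filter.Eventually.of_forall fun u => ?_
  show ‖WM χ κ M u‖ ≤ ‖(∑ n ∈ Icc 1 M, ‖_‖)‖
  rw [Real.norm_of_nonneg (sum_nonneg fun _ _ => norm_nonneg _)]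
  exact norm_win_le _ κ M u

/-- one pair -/
noncomputable def EE {f : ℕ} (χ : DirichletCharacter ℂ f) (ε Y κ : ℝ) (M : ℕ) (u : ℝ) : ℝ :=
  ‖WM χ κ M u - NW χ ε Y κ u‖

theorem EE_nonneg {f : ℕ} (χ : DirichletCharacter ℂ f) (ε Y κ : ℝ) (M : ℕ) (u : ℝ) :
    0 ≤ EE χ ε Y κ M u := norm_nonneg _

theorem EE_int {f : ℕ} (χ : DirichletCharacter ℂ f) (ε Y κ : ℝ) (M : ℕ) (a b : ℝ) :
    IntervalIntegrable (EE χ ε Y κ M) volume a b :=
  ((WM_intble χ κ M a b).sub ((NW_cont χ ε Y κ).intervalIntegrable a b)).norm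

theorem EE_sq_int {f : ℕ} (χ : DirichletCharacter ℂ f) (ε Y : ℝ) {κ : ℝ} (hκ : 0 ≤ κ) (M : ℕ) (a b : ℝ) :
    IntervalIntegrable (fun u => EE χ ε Y κ M u ^ 2) volume a b := by
  set c : ℝ := (∑ n ∈ Icc 1 M, ‖((ArithmeticFunction.vonMangoldt n / n : ℝ) : ℂ) * χ (n : ZMod f)‖) +
    κ * ∑ k ∈ FK (Kc Y + 1), ‖AN χ ε Y k‖ with hc
  have hmeas : Measurable (fun u => EE χ ε Y κ M u ^ 2) :=
    (((WM_meas χ κ M).sub (NW_cont χ ε Y κ).measurable).norm).pow_const 2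
  refine (intervalIntegrable_const (c := c ^ 2)).mono_fun hmeas.aestronglyMeasurable ?_
  refine Filter.Eventually.of_forall fun u => ?_
  have h1 : EE χ ε Y κ M u ≤ c := by
    unfold EE
    refine (norm_sub_le _ _).trans ?_
    rw [hc]
    exact add_le_add (norm_win_le _ κ M u) (NW_le χ ε Y hκ u)
  have h0 := EE_nonneg χ ε Y κ M u
  show ‖EE χ ε Y κ M u ^ 2‖ ≤ ‖c ^ 2‖
  rw [Real.norm_of_nonneg (by positivity), Real.norm_of_nonneg (by positivity)]
  exact pow_le_pow_left₀ h0 h1 2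

/-- Cauchy-Schwarz -/
theorem EE_cs {f : ℕ} (χ : DirichletCharacter ℂ f) (ε Y : ℝ) {κ : ℝ} (hκ : 0 ≤ κ) (M : ℕ) (a t : ℝ)
    (ht : 0 < t) (h : ∫ u in (a - 1 / 4)..(a + 1 / 4), EE χ ε Y κ M u ^ 2 ≤ t ^ 2) :
    ∫ u in (a - 1 / 4)..(a + 1 / 4), EE χ ε Y κ M u ≤ t := by
  have h1 : ∫ u in (a - 1 / 4)..(a + 1 / 4), EE χ ε Y κ M u ≤
      ∫ u in (a - 1 / 4)..(a + 1 / 4), (1 / (2 * t) * EE χ ε Y κ M u ^ 2 + t / 2) := by
    refine intervalIntegral.integral_mono_on (by linarith) (EE_int χ ε Y κ M _ _)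
      (((EE_sq_int χ ε Y hκ M _ _).const_mul _).add intervalIntegrable_const) ?_
    intro u _
    have h2 : 0 ≤ 1 / (2 * t) * (EE χ ε Y κ M u - t) ^ 2 := by positivity
    have h3 : 1 / (2 * t) * (EE χ ε Y κ M u - t) ^ 2 =
        (1 / (2 * t) * EE χ ε Y κ M u ^ 2 + t / 2) - EE χ ε Y κ M u := by
      field_simp
      ring
    linarith
  rw [intervalIntegral.integral_add ((EE_sq_int χ ε Y hκ M _ _).const_mul _) intervalIntegrable_const,
    intervalIntegral.integral_const_mul, intervalIntegral.integral_const] at h1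
  have h2 : 1 / (2 * t) * ∫ u in (a - 1 / 4)..(a + 1 / 4), EE χ ε Y κ M u ^ 2 ≤ 1 / (2 * t) * t ^ 2 :=
    mul_le_mul_of_nonneg_left h (by positivity)
  have h3 : 1 / (2 * t) * t ^ 2 = t / 2 := by field_simp
  have h4 : (a + 1 / 4 - (a - 1 / 4)) • (t / 2) = t / 4 := by
    rw [smul_eq_mul]
    ring
  linarith

theorem Gc_mono {δ δ' Y : ℝ} (h : δ ≤ δ') (hY : 0 ≤ Y) : Gc δ Y ≤ Gc δ' Y := by
  unfold Gc
  exact Nat.floor_le_floor (Real.exp_le_exp.2 (mul_le_mul_of_nonneg_right h hY))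

theorem s_CH2 (hW : S_WN2) (hN : S_NRX) : S_CH2 := by
  classical
  obtain ⟨ε, δ0, hε, hδ0, hδ01, hN1⟩ := hN
  obtain ⟨η1, Y1, hη1, hW1⟩ := hW ε hε
  set δ : ℝ := min δ0 (η1 / 8) with hδ
  have hδp : 0 < δ := lt_min hδ0 (by positivity)
  have hδ1 : δ ≤ 1 / 100 := (min_le_left _ _).trans hδ01
  refine ⟨δ, η1 / 4, hδp, hδ1, by positivity, ?_⟩
  intro A
  obtain ⟨Y2, hN2⟩ := hN1 A
  refine ⟨max (max Y1 Y2) 1, ?_⟩
  intro Y hY κ hκ1 hκ2
  have hY1 : Y1 ≤ Y := (le_max_left _ _).trans ((le_max_left _ _).trans hY)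
  have hY2 : Y2 ≤ Y := (le_max_right _ _).trans ((le_max_left _ _).trans hY)
  have hY3 : 1 ≤ Y := (le_max_right _ _).trans hY
  have hκ0 : 0 < κ := lt_of_lt_of_le (Real.exp_pos _) hκ1
  have hGF : Gc δ Y ≤ Fc Y := by
    unfold Gc Fc
    refine Nat.floor_le_floor (Real.exp_le_exp.2 ?_)
    have := mul_le_mul_of_nonneg_right hδ1 (by linarith : 0 ≤ Y)
    linarith
  have hGG : Gc δ Y ≤ Gc δ0 Y := Gc_mono (min_le_left _ _) (by linarith)
  obtain ⟨M, hM⟩ := exists_nat_ge (Real.exp (Y + 1 / 4 + κ))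
  set E : ℝ → ℝ := fun u => ∑ f ∈ Icc 2 (Gc δ Y), (1 / (Nat.totient f : ℝ)) *
    ∑ χ ∈ prm f (fun _ => True), EE χ ε Y κ M u with hE
  have hWM : ∀ (f : ℕ) (χ : DirichletCharacter ℂ f) (u : ℝ), u ≤ Y + 1 / 4 →
      Wn χ κ u = WM χ κ M u := fun f χ u hu => Wn_eq_WM χ hM hu
  have hint1 : ∀ f ∈ Icc 2 (Gc δ Y), IntervalIntegrable (fun u => (1 / (Nat.totient f : ℝ)) *
      ∑ χ ∈ prm f (fun _ => True), EE χ ε Y κ M u) volume (Y - 1 / 4) (Y + 1 / 4) := by
    intro f _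
    refine IntervalIntegrable.const_mul ?_ _
    have h := IntervalIntegrable.sum (μ := volume) (a := Y - 1 / 4) (b := Y + 1 / 4)
      (prm f (fun _ => True)) (f := fun χ u => EE χ ε Y κ M u) (fun χ _ => EE_int χ ε Y κ M _ _)
    have e : (∑ χ ∈ prm f (fun _ => True), fun u => EE χ ε Y κ M u) =
        fun u => ∑ χ ∈ prm f (fun _ => True), EE χ ε Y κ M u := by
      funext u
      rw [Finset.sum_apply]
    rw [e] at h
    exact h
  refine ⟨E, ?_, ?_, ?_, ?_⟩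
  · intro u
    exact Finset.sum_nonneg fun f _ => mul_nonneg (by positivity)
      (Finset.sum_nonneg fun χ _ => EE_nonneg χ ε Y κ M u)
  · have h := IntervalIntegrable.sum (μ := volume) (a := Y - 1 / 4) (b := Y + 1 / 4)
      (Icc 2 (Gc δ Y)) (f := fun f u => (1 / (Nat.totient f : ℝ)) *
        ∑ χ ∈ prm f (fun _ => True), EE χ ε Y κ M u) hint1
    have e : (∑ f ∈ Icc 2 (Gc δ Y), fun u => (1 / (Nat.totient f : ℝ)) *
        ∑ χ ∈ prm f (fun _ => True), EE χ ε Y κ M u) = E := by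
      funext u
      rw [Finset.sum_apply]
    rw [e] at h
    exact h
  · -- the integral
    set t : ℝ := κ * Real.exp (-(η1 / 2 * Y)) with ht
    have htp : 0 < t := by positivity
    have htt : t ^ 2 = κ ^ 2 * Real.exp (-(η1 * Y)) := by
      rw [ht, mul_pow, ← Real.exp_nat_mul]
      congr 2
      push_cast
      ring
    have hone : ∀ f ∈ Icc 2 (Gc δ Y), ∀ χ ∈ prm f (fun _ => True),
        ∫ u in (Y - 1 / 4)..(Y + 1 / 4), EE χ ε Y κ M u ≤ t := by
      intro f hf χ hχ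
      refine EE_cs χ ε Y hκ0.le M Y t htp ?_
      rw [htt]
      refine le_trans ?_ (hW1 Y hY1 κ hκ1 hκ2)
      have hnn : ∀ (f : ℕ) (χ : DirichletCharacter ℂ f),
          0 ≤ ∫ u in (Y - 1 / 4)..(Y + 1 / 4), ‖Wn χ κ u - NW χ ε Y κ u‖ ^ 2 := fun f χ =>
        intervalIntegral.integral_nonneg (by linarith) fun u _ => by positivity
      have h1 : ∫ u in (Y - 1 / 4)..(Y + 1 / 4), EE χ ε Y κ M u ^ 2 =
          ∫ u in (Y - 1 / 4)..(Y + 1 / 4), ‖Wn χ κ u - NW χ ε Y κ u‖ ^ 2 := by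
        refine intervalIntegral.integral_congr fun u hu => ?_
        rw [Set.uIcc_of_le (by linarith)] at hu
        simp only [EE]
        rw [hWM f χ u hu.2]
      rw [h1]
      have hf' : f ∈ Icc 2 (Fc Y) := by
        rw [mem_Icc] at hf ⊢
        exact ⟨hf.1, hf.2.trans hGF⟩
      refine le_trans ?_ (Finset.single_le_sum (f := fun f => ∑ χ ∈ prm f (fun _ => True),
        ∫ u in (Y - 1 / 4)..(Y + 1 / 4), ‖Wn χ κ u - NW χ ε Y κ u‖ ^ 2)
        (fun f _ => Finset.sum_nonneg fun χ _ => hnn f χ) hf')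
      exact Finset.single_le_sum (f := fun χ =>
        ∫ u in (Y - 1 / 4)..(Y + 1 / 4), ‖Wn χ κ u - NW χ ε Y κ u‖ ^ 2)
        (fun χ _ => hnn f χ) hχ
    have hG0 : ((Gc δ Y : ℕ) : ℝ) ≤ Real.exp (δ * Y) := by
      unfold Gc
      exact Nat.floor_le (Real.exp_pos _).le
    have hterm : ∀ f ∈ Icc 2 (Gc δ Y), ∫ u in (Y - 1 / 4)..(Y + 1 / 4),
        (1 / (Nat.totient f : ℝ)) * ∑ χ ∈ prm f (fun _ => True), EE χ ε Y κ M u ≤
        Real.exp (δ * Y) * t := by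
      intro f hf
      rw [intervalIntegral.integral_const_mul,
        intervalIntegral.integral_finsetSum fun χ _ => EE_int χ ε Y κ M _ _]
      have h2 : 2 ≤ f := (mem_Icc.1 hf).1
      have h3 : 1 / (Nat.totient f : ℝ) ≤ 1 := by
        rw [div_le_one]
        · exact_mod_cast Nat.totient_pos.2 (by omega)
        · exact_mod_cast Nat.totient_pos.2 (by omega)
      have h4 : ∑ χ ∈ prm f (fun _ => True), ∫ u in (Y - 1 / 4)..(Y + 1 / 4), EE χ ε Y κ M u ≤
          (f : ℝ) * t := by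
        refine (Finset.sum_le_sum (hone f hf)).trans ?_
        rw [Finset.sum_const, nsmul_eq_mul]
        refine mul_le_mul_of_nonneg_right ?_ htp.le
        have h6 : (prm f (fun _ : DirichletCharacter ℂ f => True)).card ≤ f :=
          (prm_card (by omega) _).trans (Nat.totient_le f)
        exact_mod_cast h6
      have h5 : 0 ≤ ∑ χ ∈ prm f (fun _ => True), ∫ u in (Y - 1 / 4)..(Y + 1 / 4), EE χ ε Y κ M u :=
        Finset.sum_nonneg fun χ _ => intervalIntegral.integral_nonneg (by linarith)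
          fun u _ => EE_nonneg χ ε Y κ M u
      calc (1 / (Nat.totient f : ℝ)) * ∑ χ ∈ prm f (fun _ => True),
            ∫ u in (Y - 1 / 4)..(Y + 1 / 4), EE χ ε Y κ M u
          ≤ 1 * ((f : ℝ) * t) := mul_le_mul h3 h4 h5 zero_le_one
        _ = (f : ℝ) * t := one_mul _
        _ ≤ Real.exp (δ * Y) * t := by
            refine mul_le_mul_of_nonneg_right ?_ htp.le
            refine le_trans ?_ hG0
            exact_mod_cast (mem_Icc.1 hf).2
    rw [hE, intervalIntegral.integral_finsetSum hint1]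
    refine (Finset.sum_le_sum hterm).trans ?_
    rw [Finset.sum_const, nsmul_eq_mul]
    have h6 : ((Icc 2 (Gc δ Y)).card : ℝ) ≤ Real.exp (δ * Y) := by
      refine le_trans ?_ hG0
      rw [Nat.card_Icc]
      exact_mod_cast (by omega)
    calc ((Icc 2 (Gc δ Y)).card : ℝ) * (Real.exp (δ * Y) * t) ≤
          Real.exp (δ * Y) * (Real.exp (δ * Y) * t) :=
            mul_le_mul_of_nonneg_right h6 (by positivity)
      _ = κ * Real.exp (2 * δ * Y - η1 / 2 * Y) := by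
          rw [ht]
          have : Real.exp (2 * δ * Y - η1 / 2 * Y) =
              Real.exp (δ * Y) * Real.exp (δ * Y) * Real.exp (-(η1 / 2 * Y)) := by
            rw [← Real.exp_add, ← Real.exp_add]
            congr 1
            ring
          rw [this]
          ring
      _ ≤ κ * Real.exp (-(η1 / 4 * Y)) := by
          refine mul_le_mul_of_nonneg_left (Real.exp_le_exp.2 ?_) hκ0.le
          have h7 : δ ≤ η1 / 8 := min_le_right _ _
          nlinarith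
  · -- pointwise
    intro u hu1 hu2
    have h1 : ∀ f ∈ Icc 2 (Gc δ Y), (1 / (Nat.totient f : ℝ)) * ∑ χ ∈ prm f (fun _ => True),
        ‖Wn χ κ u‖ ≤ (1 / (Nat.totient f : ℝ)) * ∑ χ ∈ prm f (fun _ => True), EE χ ε Y κ M u +
        κ * ((1 / (Nat.totient f : ℝ)) * ∑ χ ∈ prm f (fun _ => True),
          ∑ k ∈ FK (Kc Y + 1), ‖AN χ ε Y k‖) := by
      intro f _
      have h2 : ∑ χ ∈ prm f (fun _ => True), ‖Wn χ κ u‖ ≤
          ∑ χ ∈ prm f (fun _ => True), EE χ ε Y κ M u +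
          κ * ∑ χ ∈ prm f (fun _ => True), ∑ k ∈ FK (Kc Y + 1), ‖AN χ ε Y k‖ := by
        rw [Finset.mul_sum, ← Finset.sum_add_distrib]
        refine Finset.sum_le_sum fun χ _ => ?_
        rw [hWM f χ u hu2]
        have h3 : WM χ κ M u = (WM χ κ M u - NW χ ε Y κ u) + NW χ ε Y κ u := by ring
        rw [h3]
        refine (norm_add_le _ _).trans ?_
        exact add_le_add le_rfl (NW_le χ ε Y hκ0.le u)
      have h3 : (0 : ℝ) ≤ 1 / (Nat.totient f : ℝ) := by positivity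
      have h4 := mul_le_mul_of_nonneg_left h2 h3
      refine h4.trans (le_of_eq ?_)
      ring
    refine (Finset.sum_le_sum h1).trans ?_
    rw [Finset.sum_add_distrib, ← Finset.mul_sum]
    refine add_le_add le_rfl ?_
    have h5 : ∑ f ∈ Icc 2 (Gc δ Y), (1 / (Nat.totient f : ℝ)) * ∑ χ ∈ prm f (fun _ => True),
        ∑ k ∈ FK (Kc Y + 1), ‖AN χ ε Y k‖ ≤ 1 / Y ^ A := by
      refine le_trans ?_ (hN2 Y hY2)
      refine Finset.sum_le_sum_of_subset_of_nonneg (Finset.Icc_subset_Icc le_rfl hGG) ?_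
      intro f _ _
      exact mul_nonneg (by positivity) (Finset.sum_nonneg fun χ _ =>
        Finset.sum_nonneg fun k _ => norm_nonneg _)
    calc κ * ∑ f ∈ Icc 2 (Gc δ Y), (1 / (Nat.totient f : ℝ)) * ∑ χ ∈ prm f (fun _ => True),
        ∑ k ∈ FK (Kc Y + 1), ‖AN χ ε Y k‖ ≤ κ * (1 / Y ^ A) := mul_le_mul_of_nonneg_left h5 hκ0.le
      _ = κ / Y ^ A := by ring

end Pool.Agent.L7h97.BP
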