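import Pool.Agent.L7h18.BP.Eng
import Pool.Agent.W12.HR.Mv
import Pool.Agent.H488R2.PPM.Mer
import Pool.Agent.H325R2.PPWtx
import Pool.Agent.H363R2.PPCnt

/-!
# Project BP: bounded clusters in one window (S_CLA)
-/

set_option autoImplicit false

open Finset Filter

namespace Pool.Agent.L7h97.BP

open Pool.Agent.H361R2.PP
open Pool.Agent.H410R2.AC (wt GG cfg term WW pos Inj coef)
open Pool.Agent.W70.HR (Bw rU xh qh Fam S_MLA S_PT S_MV)
open Pool.Agent.L7h18.BP

theorem mv : S_MV := Pool.Agent.W12.HR.mv (Pool.Agent.H488R2.mer Pool.Agent.H325R2.wtx)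
  Pool.Agent.H325R2.wtx

theorem tendsto_HH : Tendsto HH atTop atTop := by
  have h1 : Tendsto (fun X : ℕ => Real.log (Real.log X) / 4) atTop atTop :=
    (Real.tendsto_log_atTop.comp (Real.tendsto_log_atTop.comp
      tendsto_natCast_atTop_atTop)).atTop_div_const (by norm_num)
  exact tendsto_nat_floor_atTop.comp h1

theorem tendsto_log : Tendsto (fun X : ℕ => Real.log (X : ℝ)) atTop atTop :=
  Real.tendsto_log_atTop.comp tendsto_natCast_atTop_atTop

/-- an admissible class -/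
theorem b_exists (N X : ℕ) (_hN : N ≤ HH X) :
    ∃ b < Wm X, ∀ j, 1 ≤ j → j ≤ N → (b + N.factorial * j).Coprime (Wm X) := by
  classical
  set Q : ℕ := ∏ p ∈ (range (HH X + 1)).filter (fun p => p.Prime ∧ N < p), p with hQ
  have hW : 0 < Wm X := primorial_pos _
  refine ⟨Q % Wm X, Nat.mod_lt _ hW, fun j hj1 hj2 => ?_⟩
  have hWd : ∀ p : ℕ, p.Prime → p ≤ HH X → p ∣ Wm X := by
    intro p hp hpH
    unfold Wm primorial
    refine Finset.dvd_prod_of_mem (fun p => p) ?_
    rw [mem_filter, mem_range]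
    exact ⟨by omega, hp⟩
  have key : ∀ p : ℕ, p.Prime → p ≤ HH X → ¬ p ∣ Q % Wm X + N.factorial * j := by
    intro p hp hpH hd
    have h1 : p ∣ Q + N.factorial * j := by
      have h2 : (Q % Wm X) % p = Q % p := Nat.mod_mod_of_dvd Q (hWd p hp hpH)
      rw [Nat.dvd_iff_mod_eq_zero] at hd ⊢
      rw [Nat.add_mod, h2, ← Nat.add_mod] at hd
      exact hd
    rcases le_or_gt p N with hpN | hpN
    · have h2 : p ∣ N.factorial * j := (Nat.dvd_factorial hp.pos hpN).mul_right j
      have h3 : p ∣ Q := (Nat.dvd_add_left h2).1 h1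
      rw [hQ, hp.prime.dvd_finsetProd_iff] at h3
      obtain ⟨q, hq, hpq⟩ := h3
      rw [mem_filter] at hq
      have h4 := (Nat.prime_dvd_prime_iff_eq hp hq.2.1).1 hpq
      omega
    · have h2 : p ∣ Q := by
        rw [hQ]
        refine Finset.dvd_prod_of_mem (fun p => p) ?_
        rw [mem_filter, mem_range]
        exact ⟨by omega, hp, hpN⟩
      have h3 : p ∣ N.factorial * j := (Nat.dvd_add_right h2).1 h1
      rcases (Nat.Prime.dvd_mul hp).1 h3 with h4 | h4
      · have := (Nat.Prime.dvd_factorial hp).1 h4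
        omega
      · have := Nat.le_of_dvd (by omega) h4
        omega
  unfold Wm primorial
  refine Nat.Coprime.prod_right fun p hp => ?_
  rw [mem_filter, mem_range] at hp
  refine ((Nat.Prime.coprime_iff_not_dvd hp.2).2 ?_).symm
  exact key p hp.2 (by omega)

/-- the choice of the number of groups -/
theorem groups (ϑ c₀ : ℝ) (m : ℕ) (hϑ : 0 < ϑ) (hc₀ : 0 < c₀) :
    ∃ T : ℕ, 1 ≤ T ∧ (m : ℝ) ≤ c₀ * ϑ / 800 * T := by
  have h : 0 < c₀ * ϑ / 800 := by positivity
  refine ⟨⌈(m : ℝ) / (c₀ * ϑ / 800)⌉₊ + 1, by omega, ?_⟩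
  have h1 := Nat.le_ceil ((m : ℝ) / (c₀ * ϑ / 800))
  rw [div_le_iff₀ h] at h1
  push_cast
  nlinarith

/-- many groups with a prime give many primes -/
theorem primes_ge (T K m n L : ℕ) (r : ℝ) (H' : Fin T → Fin K → ℕ) (hr : (m : ℝ) ≤ r * T)
    (hinj : Function.Injective (fun x : Fin T × Fin K => H' x.1 x.2))
    (hL : ∀ g i, H' g i ∈ Icc 1 L)
    [DecidablePred (fun g : Fin T => ∃ i, (n + H' g i).Prime)]
    (h : r * T ≤ (((univ : Finset (Fin T)).filter (fun g => ∃ i, (n + H' g i).Prime)).card : ℝ)) :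
    m ≤ ((Icc 1 L).filter (fun a => (n + a).Prime)).card := by
  classical
  have h1 : m ≤ ((univ : Finset (Fin T)).filter (fun g => ∃ i, (n + H' g i).Prime)).card := by
    exact_mod_cast hr.trans h
  refine h1.trans ?_
  have h2 : ∀ g : Fin T, ∃ a : ℕ, (∃ i, (n + H' g i).Prime) → ∃ i, a = H' g i ∧ (n + a).Prime := by
    intro g
    by_cases hg : ∃ i, (n + H' g i).Prime
    · obtain ⟨i, hi⟩ := hg
      exact ⟨H' g i, fun _ => ⟨i, rfl, hi⟩⟩
    · exact ⟨0, fun h => absurd h hg⟩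
  choose f hf using h2
  refine Finset.card_le_card_of_injOn f ?_ ?_
  · intro g hg
    obtain ⟨i, hi, hp⟩ := hf g (mem_filter.1 hg).2
    rw [mem_coe, mem_filter]
    exact ⟨hi ▸ hL g i, hp⟩
  · intro g hg g' hg' hgg
    obtain ⟨i, hi, -⟩ := hf g (mem_filter.1 hg).2
    obtain ⟨i', hi', -⟩ := hf g' (mem_filter.1 hg').2
    have := @hinj (g, i) (g', i') (by show H' g i = H' g' i'; rw [← hi, ← hi']; exact hgg)
    exact (Prod.ext_iff.1 this).1

theorem s_CLA (hMT : S_MTW) : S_CLA := by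
  classical
  intro ϑ c₀ m hϑ hϑ2 hc₀
  obtain ⟨T, hT, hTm⟩ := groups ϑ c₀ m hϑ hc₀
  obtain ⟨K, hK, hMT1⟩ := hMT ϑ c₀ hϑ hϑ2 hc₀ T hT
  obtain ⟨δ, c, hδ, hδ8, hc, K', A', X1, hX1⟩ := hMT1 1 0 one_pos
  obtain ⟨cv, hcv, hmv⟩ := mv
  obtain ⟨X2, hX2⟩ := hmv δ hδ (by linarith)
  set N : ℕ := T * K with hN
  have hN1 : 1 ≤ N := Nat.mul_pos hT hK
  set C1 : ℕ := N.factorial * N with hC1
  set C : ℕ := max (N + 1) C1 with hC
  have hlog := tendsto_log.eventually_ge_atTop (max 1 (C1 : ℝ))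
  obtain ⟨X3, hX3⟩ := eventually_atTop.1 (hlog.and ((tendsto_HH.eventually_ge_atTop N).and
    (eventually_ge_atTop 16)))
  refine ⟨C, K', A', max X1 (max X2 X3), c * cv ^ N, by positivity, ?_⟩
  intro X hX ω hω
  have hXa : X1 ≤ X := (le_max_left _ _).trans hX
  have hXb : X2 ≤ X := (le_max_left _ _).trans ((le_max_right _ _).trans hX)
  have hXc : X3 ≤ X := (le_max_right _ _).trans ((le_max_right _ _).trans hX)
  obtain ⟨hl, hHN, hX16⟩ := hX3 X hXc
  have hl1 : 1 ≤ Real.log X := (le_max_left _ _).trans hl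
  have hl0 : 0 < Real.log X := by linarith
  have hlC : (C1 : ℝ) ≤ Real.log X := (le_max_right _ _).trans hl
  obtain ⟨b, hb, hbc⟩ := b_exists N X hHN
  -- positions
  set H' : Fin T → Fin K → ℕ := fun g i => N.factorial * (1 + g * K + i) with hH'
  have hj : ∀ (g : Fin T) (i : Fin K), 1 + (g : ℕ) * K + i ≤ N := by
    intro g i
    have h1 := g.2
    have h2 := i.2
    have h3 : ((g : ℕ) + 1) * K ≤ T * K := Nat.mul_le_mul_right K h1
    rw [hN]
    nlinarith
  have hHC : ∀ g i, H' g i ∈ Icc 1 C1 := by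
    intro g i
    rw [mem_Icc]
    refine ⟨?_, Nat.mul_le_mul_left _ (hj g i)⟩
    have := Nat.factorial_pos N
    exact Nat.mul_pos this (by omega)
  have hinj : Function.Injective (fun x : Fin T × Fin K => H' x.1 x.2) := by
    rintro ⟨g, i⟩ ⟨g', i'⟩ h
    have h1 : N.factorial * (1 + (g : ℕ) * K + i) = N.factorial * (1 + (g' : ℕ) * K + i') := h
    have h2 := Nat.eq_of_mul_eq_mul_left (Nat.factorial_pos N) h1
    have h3 : (i : ℕ) + K * g = (i' : ℕ) + K * g' := by
      rw [Nat.mul_comm K, Nat.mul_comm K]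
      omega
    have h4 : (i : ℕ) = i' := by
      have h5 := congrArg (· % K) h3
      simp only [Nat.add_mul_mod_self_left] at h5
      rwa [Nat.mod_eq_of_lt i.2, Nat.mod_eq_of_lt i'.2] at h5
    have h5 : (g : ℕ) = g' := by
      have h6 : K * (g : ℕ) = K * g' := by omega
      exact Nat.eq_of_mul_eq_mul_left (by omega) h6
    exact Prod.ext (Fin.ext h5) (Fin.ext h4)
  have hmem : ∀ g i, H' g i ∈ Bw 1 X b := by
    intro g i
    unfold Bw BB
    rw [mem_filter, mem_Icc]
    have h1 := mem_Icc.1 (hHC g i)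
    refine ⟨⟨h1.1, ?_⟩, hbc _ (by omega) (hj g i)⟩
    refine Nat.le_floor ?_
    rw [one_mul]
    exact le_trans (by exact_mod_cast h1.2) hlC
  obtain ⟨hV, -, hhits⟩ := hX1 X hXa ω hω b hb
  have hh := hhits H' hmem hinj
  -- hits are in the set
  have hsub : hitsW ω δ (c₀ * ϑ / 800) X b T K H' ≤
      (ω.Q.filter (fun n => m ≤ ((Icc 1 C).filter (fun a => (n + a).Prime)).card)).card := by
    unfold hitsW
    refine Finset.card_le_card ?_
    intro n hn
    rw [mem_filter] at hn ⊢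
    obtain ⟨hn1, hn2, hn3⟩ := hn
    unfold Pool.Agent.L7h18.BP.WI at hn1
    refine ⟨(mem_filter.1 hn1).1, ?_⟩
    have h1 := primes_ge T K m n C1 _ H' hTm hinj hHC hn3
    refine h1.trans (Finset.card_le_card ?_)
    refine Finset.filter_subset_filter _ (Finset.Icc_subset_Icc le_rfl (le_max_right _ _))
  have hsub' : (hitsW ω δ (c₀ * ϑ / 800) X b T K H' : ℝ) ≤
      ((ω.Q.filter (fun n => m ≤ ((Icc 1 C).filter (fun a => (n + a).Prime)).card)).card : ℝ) := by
    exact_mod_cast hsub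
  refine le_trans ?_ (hh.trans hsub')
  -- lower bound of the expected number
  have hWpos : (0 : ℝ) < Wm X := by exact_mod_cast primorial_pos _
  have hHpos : 0 < ω.H := hω.1.1
  have hWl : (Wm X : ℝ) ≤ Real.log X := by
    refine (Pool.Agent.H325R2.wtx.1 X hX16).trans ?_
    calc Real.log X ^ (7 / 20 : ℝ) ≤ Real.log X ^ (1 : ℝ) :=
          Real.rpow_le_rpow_of_exponent_le hl1 (by norm_num)
      _ = Real.log X := Real.rpow_one _
  have hVl : cv / Real.log X ≤ VV δ X := by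
    have h1 := hX2 X hXb
    have h2 : ((Nat.totient (Wm X) : ℝ) / Wm X) ≤ 1 := by
      rw [div_le_one hWpos]
      exact_mod_cast Nat.totient_le _
    rw [div_le_iff₀ hl0]
    have h3 : VV δ X * ((Nat.totient (Wm X) : ℝ) / Wm X) ≤ VV δ X := by
      have := mul_le_mul_of_nonneg_left h2 hV.le
      linarith
    have h4 : VV δ X * ((Nat.totient (Wm X) : ℝ) / Wm X) * (δ * Real.log X) ≤
        VV δ X * (1 * Real.log X) := by
      refine mul_le_mul h3 ?_ (by positivity) hV.le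
      exact mul_le_mul_of_nonneg_right (by linarith) hl0.le
    linarith
  unfold WOm
  have e1 : cv ^ N / Real.log X ^ N ≤ VV δ X ^ N := by
    rw [← div_pow]
    exact pow_le_pow_left₀ (by positivity) hVl N
  have e2 : ω.H / Real.log X ≤ ω.H / Wm X :=
    div_le_div_of_nonneg_left hHpos.le hWpos hWl
  have e3 : ω.H / Real.log X * (cv ^ N / Real.log X ^ N) ≤ ω.H / Wm X * VV δ X ^ N :=
    mul_le_mul e2 e1 (by positivity) (by positivity)
  have e4 : 1 / Real.log X ^ C ≤ 1 / Real.log X ^ (N + 1) :=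
    one_div_le_one_div_of_le (by positivity) (pow_le_pow_right₀ hl1 (le_max_left _ _))
  calc c * cv ^ N * ω.H / Real.log X ^ C = c * cv ^ N * ω.H * (1 / Real.log X ^ C) := by ring
    _ ≤ c * cv ^ N * ω.H * (1 / Real.log X ^ (N + 1)) :=
        mul_le_mul_of_nonneg_left e4 (by positivity)
    _ = c * (ω.H / Real.log X * (cv ^ N / Real.log X ^ N)) := by
        rw [pow_succ]
        field_simp
    _ ≤ c * (ω.H / Wm X * VV δ X ^ N) := mul_le_mul_of_nonneg_left e3 hc.le

end Pool.Agent.L7h97.BP
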