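import Pool.Agent.L7h97.BP.Cla

/-!
# Project BP: a positive proportion of the integers of one window (S_CLB)
-/

set_option autoImplicit false

open Finset Filter

namespace Pool.Agent.L7h97.BP

open Pool.Agent.H361R2.PP
open Pool.Agent.H410R2.AC (wt GG cfg term WW pos Inj coef)
open Pool.Agent.W70.HR (Bw rU xh qh Fam S_MLA S_PT S_MV)
open Pool.Agent.L7h18.BP

theorem rg_cases (P : Finset ℕ) (a n : ℕ) : rg P a n = 0 ∨ rg P a n = 1 := by
  classical
  unfold rg
  split_ifs
  · exact Or.inr rfl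
  · exact Or.inl rfl

open Classical in
/-- the injective assignments of positions -/
noncomputable def Asg (T K : ℕ) (B : Finset ℕ) : Finset (Fin T → Fin K → ℕ) :=
  (Fintype.piFinset (fun _ : Fin T => Fintype.piFinset (fun _ : Fin K => B))).filter (fun H =>
    Function.Injective (fun x : Fin T × Fin K => H x.1 x.2))

theorem mem_Asg (T K : ℕ) (B : Finset ℕ) (H : Fin T → Fin K → ℕ) :
    H ∈ Asg T K B ↔ (∀ g i, H g i ∈ B) ∧ Function.Injective (fun x : Fin T × Fin K => H x.1 x.2) := by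
  unfold Asg
  rw [mem_filter]
  simp only [Fintype.mem_piFinset]

/-- there are many of them -/
theorem card_Asg (T K : ℕ) (B : Finset ℕ) (hB : 2 * (T * K) ≤ B.card) :
    ((B.card : ℝ) / 2) ^ (T * K) ≤ ((Asg T K B).card : ℝ) := by
  classical
  set N := T * K with hN
  have h1 : Fintype.card ((Fin T × Fin K) ↪ B) = B.card.descFactorial N := by
    rw [Fintype.card_embedding_eq]
    simp [hN]
  have h2 : Fintype.card ((Fin T × Fin K) ↪ B) ≤ (Asg T K B).card := by
    rw [← Finset.card_univ]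
    refine Finset.card_le_card_of_injOn (fun e => fun g i => (e (g, i) : ℕ)) ?_ ?_
    · intro e _
      rw [mem_coe, mem_Asg]
      refine ⟨fun g i => (e (g, i)).2, ?_⟩
      intro x y hxy
      have : e x = e y := Subtype.ext hxy
      exact e.injective this
    · intro e _ e' _ hee
      ext x
      have := congrFun (congrFun hee x.1) x.2
      exact this
  have h3 : (B.card + 1 - N) ^ N ≤ B.card.descFactorial N := Nat.pow_sub_le_descFactorial _ _
  rw [h1] at h2
  have h4 : ((B.card : ℝ) / 2) ≤ ((B.card + 1 - N : ℕ) : ℝ) := by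
    rw [Nat.cast_sub (by omega)]
    push_cast
    have h5 : (2 : ℝ) * N ≤ B.card := by exact_mod_cast hB
    linarith
  calc ((B.card : ℝ) / 2) ^ N ≤ ((B.card + 1 - N : ℕ) : ℝ) ^ N :=
        pow_le_pow_left₀ (by positivity) h4 N
    _ ≤ ((Asg T K B).card : ℝ) := by exact_mod_cast h3.trans h2

/-- the number of assignments with rough positions -/
theorem rough_card (T K : ℕ) (B : Finset ℕ) (P : Finset ℕ) (n : ℕ)
    [DecidablePred (fun H : Fin T → Fin K → ℕ => ∀ g i, rg P (H g i) n = 1)] :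
    (((Asg T K B).filter (fun H => ∀ g i, rg P (H g i) n = 1)).card : ℝ) ≤
      (∑ a ∈ B, rg P a n) ^ (T * K) := by
  classical
  set R := B.filter (fun a => rg P a n = 1) with hR
  have h1 : ∑ a ∈ B, rg P a n = (R.card : ℝ) := by
    rw [hR, card_filter]
    push_cast
    refine sum_congr rfl fun a _ => ?_
    rcases rg_cases P a n with h | h
    · rw [h, if_neg (by norm_num)]
    · rw [h, if_pos rfl]
  have h2 : (Asg T K B).filter (fun H => ∀ g i, rg P (H g i) n = 1) ⊆
      Fintype.piFinset (fun _ : Fin T => Fintype.piFinset (fun _ : Fin K => R)) := by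
    intro H hH
    rw [mem_filter, mem_Asg] at hH
    simp only [Fintype.mem_piFinset]
    intro g i
    rw [hR, mem_filter]
    exact ⟨hH.1.1 g i, hH.2 g i⟩
  have h3 := Finset.card_le_card h2
  rw [Fintype.card_piFinset] at h3
  simp only [Fintype.card_piFinset, prod_const, card_univ, Fintype.card_fin] at h3
  rw [← pow_mul, mul_comm K T] at h3
  rw [h1]
  exact_mod_cast h3

theorem s_CLB (hMT : S_MTW) (hRM : S_RMW) : S_CLB := by
  classical
  intro ϑ c₀ lam m hϑ hϑ2 hc₀ hlam
  obtain ⟨T, hT, hTm⟩ := groups ϑ c₀ m hϑ hc₀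
  obtain ⟨K, hK, hMT1⟩ := hMT ϑ c₀ hϑ hϑ2 hc₀ T hT
  set N : ℕ := T * K with hN
  have hN1 : 1 ≤ N := Nat.mul_pos hT hK
  obtain ⟨δ, c, hδ, hδ8, hc, K', A', X1, hX1⟩ := hMT1 lam (2 * N) hlam
  obtain ⟨cv, hcv, hmv⟩ := mv
  obtain ⟨X2, hX2⟩ := hmv δ hδ (by linarith)
  obtain ⟨CR, X3, hCR, hX3⟩ := hRM (2 * N) lam δ hlam hδ hδ8
  obtain ⟨X4, hX4⟩ := Pool.Agent.H363R2.PPCnt.cnt (1 / 2) lam lam (by norm_num) hlam hlam
  set r0 : ℝ := lam / 2 * (cv / δ) with hr0
  have hr0p : 0 < r0 := by positivity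
  have hpow : Tendsto (fun X : ℕ => Real.log (X : ℝ) ^ (13 / 20 : ℝ)) atTop atTop :=
    (tendsto_rpow_atTop (by norm_num)).comp tendsto_log
  obtain ⟨X5, hX5⟩ := eventually_atTop.1 ((tendsto_log.eventually_ge_atTop 1).and
    ((hpow.eventually_ge_atTop (2 * N / (lam / 2))).and (eventually_ge_atTop 16)))
  refine ⟨K', A', max (max X1 X2) (max X3 (max X4 X5)),
    (r0 / 2) ^ (2 * N) * c ^ 2 / CR, by positivity, ?_⟩
  intro X hX ω hω
  have hXa : X1 ≤ X := (le_max_left _ _).trans ((le_max_left _ _).trans hX)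
  have hXb : X2 ≤ X := (le_max_right _ _).trans ((le_max_left _ _).trans hX)
  have hXc : X3 ≤ X := (le_max_left _ _).trans ((le_max_right _ _).trans hX)
  have hXd : X4 ≤ X := (le_max_left _ _).trans ((le_max_right _ _).trans ((le_max_right _ _).trans hX))
  have hXe : X5 ≤ X := (le_max_right _ _).trans ((le_max_right _ _).trans ((le_max_right _ _).trans hX))
  obtain ⟨hl1, hlp, hX16⟩ := hX5 X hXe
  have hl0 : 0 < Real.log X := by linarith
  have hWpos : (0 : ℝ) < Wm X := by exact_mod_cast primorial_pos _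
  have hHpos : 0 < ω.H := hω.1.1
  set L : ℕ := ⌊lam * Real.log X⌋₊ with hL
  set f : ℝ := (Nat.totient (Wm X) : ℝ) / Wm X with hf
  have hf0 : 0 ≤ f := by positivity
  -- one class
  have hclass : ∀ b < Wm X, (r0 / 2) ^ (2 * N) * c ^ 2 / CR * (ω.H / Wm X) ≤
      (((WI ω X b).filter (fun n => m ≤ ((Icc 1 L).filter (fun a => (n + a).Prime)).card)).card : ℝ) := by
    intro b hb
    obtain ⟨hV, hU, hhits⟩ := hX1 X hXa ω hω b hb
    have hRM1 := hX3 X hXc ω b hHpos hb hU
    set B : Finset ℕ := Bw lam X b with hB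
    set G : Finset ℕ := (WI ω X b).filter
      (fun n => m ≤ ((Icc 1 L).filter (fun a => (n + a).Prime)).card) with hG
    set P := P1 (HH X) (JJ δ X) with hP
    -- the number of positions
    have hcard : lam / 2 * (f * Real.log X) ≤ (B.card : ℝ) := by
      have h3 := hX4 X hXd b 0 (lam * Real.log X) le_rfl (by linarith) le_rfl
      have h4 : (BB X b ⌊lam * Real.log X⌋₊).filter
          (fun a : ℕ => (0 : ℝ) < a ∧ (a : ℝ) ≤ lam * Real.log X) = Bw lam X b := by
        unfold Bw
        refine filter_true_of_mem fun a ha => ?_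
        unfold BB at ha
        rw [mem_filter, mem_Icc] at ha
        refine ⟨by exact_mod_cast ha.1.1, ?_⟩
        exact (Nat.cast_le.2 ha.1.2).trans (Nat.floor_le (by positivity))
      rw [h4] at h3
      have h5 := (abs_le.1 h3).1
      rw [← hf, sub_zero] at h5
      rw [hB]
      linarith
    have hBV : r0 ≤ (B.card : ℝ) * VV δ X := by
      have h1 := hX2 X hXb
      rw [← hf] at h1
      have h2 : cv / δ ≤ VV δ X * (f * Real.log X) := by
        rw [div_le_iff₀ hδ]
        linarith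
      calc r0 = lam / 2 * (cv / δ) := hr0
        _ ≤ lam / 2 * (VV δ X * (f * Real.log X)) := mul_le_mul_of_nonneg_left h2 (by positivity)
        _ = (lam / 2 * (f * Real.log X)) * VV δ X := by ring
        _ ≤ (B.card : ℝ) * VV δ X := mul_le_mul_of_nonneg_right hcard hV.le
    have hB2 : 2 * N ≤ B.card := by
      have h1 : Real.log X ^ (13 / 20 : ℝ) ≤ f * Real.log X := by
        have h2 : (Wm X : ℝ) ≤ Real.log X ^ (7 / 20 : ℝ) := Pool.Agent.H325R2.wtx.1 X hX16
        have h3 : 1 ≤ (Nat.totient (Wm X) : ℝ) := by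
          exact_mod_cast Nat.totient_pos.2 (primorial_pos _)
        have h4 : 1 / Real.log X ^ (7 / 20 : ℝ) ≤ f := by
          rw [hf]
          exact div_le_div₀ (by positivity) h3 hWpos h2
        have h5 : Real.log X ^ (13 / 20 : ℝ) = 1 / Real.log X ^ (7 / 20 : ℝ) * Real.log X := by
          rw [one_div, ← Real.rpow_neg hl0.le, ← Real.rpow_add_one hl0.ne']
          norm_num
        rw [h5]
        exact mul_le_mul_of_nonneg_right h4 hl0.le
      have h2 : (2 * N : ℝ) ≤ lam / 2 * (f * Real.log X) := by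
        rw [div_le_iff₀ (by positivity)] at hlp
        calc (2 * N : ℝ) ≤ Real.log X ^ (13 / 20 : ℝ) * (lam / 2) := hlp
          _ = lam / 2 * Real.log X ^ (13 / 20 : ℝ) := by ring
          _ ≤ _ := mul_le_mul_of_nonneg_left h1 (by positivity)
      exact_mod_cast h2.trans hcard
    have hBL : ∀ a ∈ B, a ∈ Icc 1 L := by
      intro a ha
      rw [hB] at ha
      unfold Bw BB at ha
      exact (mem_filter.1 ha).1
    -- double counting
    have hdc : ((B.card : ℝ) / 2) ^ N * (c * WOm ω δ X N) ≤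
        ∑ n ∈ G, (∑ a ∈ B, rg P a n) ^ N := by
      have h1 : ((Asg T K B).card : ℝ) * (c * WOm ω δ X N) ≤
          ∑ H ∈ Asg T K B, (hitsW ω δ (c₀ * ϑ / 800) X b T K H : ℝ) := by
        rw [← nsmul_eq_mul]
        refine Finset.card_nsmul_le_sum _ _ _ fun H hH => ?_
        rw [mem_Asg] at hH
        exact hhits H hH.1 hH.2
      have h2 : ∑ H ∈ Asg T K B, (hitsW ω δ (c₀ * ϑ / 800) X b T K H : ℝ) ≤
          ∑ n ∈ G, (((Asg T K B).filter (fun H => ∀ g i, rg P (H g i) n = 1)).card : ℝ) := by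
        have h3 : ∀ H ∈ Asg T K B, (hitsW ω δ (c₀ * ϑ / 800) X b T K H : ℝ) ≤
            ∑ n ∈ G, (if ∀ g i, rg P (H g i) n = 1 then (1 : ℝ) else 0) := by
          intro H hH
          rw [mem_Asg] at hH
          rw [Finset.sum_boole]
          unfold hitsW
          refine Nat.cast_le.2 (Finset.card_le_card ?_)
          intro n hn
          rw [mem_filter] at hn
          obtain ⟨hn1, hn2, hn3⟩ := hn
          rw [mem_filter, hG, mem_filter]
          refine ⟨⟨hn1, ?_⟩, hn2⟩
          exact primes_ge T K m n L _ H hTm hH.2 (fun g i => hBL _ (hH.1 g i)) hn3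
        refine (Finset.sum_le_sum h3).trans (le_of_eq ?_)
        rw [Finset.sum_comm]
        refine Finset.sum_congr rfl fun n _ => ?_
        rw [Finset.sum_boole]
      have h3 : 0 ≤ c * WOm ω δ X N := by
        unfold WOm
        positivity
      calc ((B.card : ℝ) / 2) ^ N * (c * WOm ω δ X N) ≤
            ((Asg T K B).card : ℝ) * (c * WOm ω δ X N) :=
              mul_le_mul_of_nonneg_right (card_Asg T K B hB2) h3
        _ ≤ _ := h1
        _ ≤ _ := h2
        _ ≤ _ := Finset.sum_le_sum fun n _ => rough_card T K B P n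
    -- Cauchy-Schwarz
    have hCS : (∑ n ∈ G, (∑ a ∈ B, rg P a n) ^ N) ^ 2 ≤
        (G.card : ℝ) * ∑ n ∈ G, ((∑ a ∈ B, rg P a n) ^ N) ^ 2 := by
      exact sq_sum_le_card_mul_sum_sq
    have hr0' : ∀ n, 0 ≤ ∑ a ∈ B, rg P a n := by
      intro n
      refine Finset.sum_nonneg fun a _ => ?_
      rcases rg_cases P a n with h | h <;> rw [h] <;> norm_num
    have hG2 : ∑ n ∈ G, ((∑ a ∈ B, rg P a n) ^ N) ^ 2 ≤ CR * (ω.H / Wm X) := by
      refine le_trans ?_ hRM1
      refine le_trans (Finset.sum_le_sum_of_subset_of_nonneg (Finset.filter_subset _ _)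
        fun n _ _ => by positivity) (le_of_eq ?_)
      refine Finset.sum_congr rfl fun n _ => ?_
      rw [← pow_mul, mul_comm N 2]
    have hD : 0 < ω.H / Wm X := by positivity
    have hfin : (((B.card : ℝ) / 2) ^ N * (c * WOm ω δ X N)) ^ 2 ≤
        (G.card : ℝ) * (CR * (ω.H / Wm X)) := by
      refine (pow_le_pow_left₀ ?_ hdc 2).trans (hCS.trans
        (mul_le_mul_of_nonneg_left hG2 (by positivity)))
      unfold WOm
      positivity
    have hlow : (r0 / 2) ^ (2 * N) * c ^ 2 * (ω.H / Wm X) ^ 2 ≤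
        (((B.card : ℝ) / 2) ^ N * (c * WOm ω δ X N)) ^ 2 := by
      have h1 : ((B.card : ℝ) / 2) ^ N * (c * WOm ω δ X N) =
          ((B.card : ℝ) * VV δ X / 2) ^ N * (c * (ω.H / Wm X)) := by
        unfold WOm
        rw [div_pow, div_pow, mul_pow]
        ring
      rw [h1, mul_pow, ← pow_mul, mul_comm N 2, mul_pow c]
      have h2 : (r0 / 2) ^ (2 * N) ≤ ((B.card : ℝ) * VV δ X / 2) ^ (2 * N) :=
        pow_le_pow_left₀ (by positivity) (by linarith) _
      have h3 : (0 : ℝ) ≤ c ^ 2 := by positivity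
      have h4 : (0 : ℝ) ≤ (ω.H / Wm X) ^ 2 := by positivity
      calc (r0 / 2) ^ (2 * N) * c ^ 2 * (ω.H / Wm X) ^ 2 =
            (r0 / 2) ^ (2 * N) * (c ^ 2 * (ω.H / Wm X) ^ 2) := by ring
        _ ≤ _ := mul_le_mul_of_nonneg_right h2 (mul_nonneg h3 h4)
    have h5 : (r0 / 2) ^ (2 * N) * c ^ 2 * (ω.H / Wm X) ^ 2 ≤ (G.card : ℝ) * (CR * (ω.H / Wm X)) :=
      hlow.trans hfin
    have h6 : ((r0 / 2) ^ (2 * N) * c ^ 2 * (ω.H / Wm X)) * (ω.H / Wm X) ≤
        ((G.card : ℝ) * CR) * (ω.H / Wm X) := by linarith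
    have h7 := le_of_mul_le_mul_right h6 hD
    rw [div_mul_eq_mul_div, div_le_iff₀ hCR]
    exact h7
  -- sum over the classes
  have hsum : ∑ b ∈ range (Wm X), (((WI ω X b).filter
      (fun n => m ≤ ((Icc 1 L).filter (fun a => (n + a).Prime)).card)).card : ℝ) =
      ((ω.Q.filter (fun n => m ≤ ((Icc 1 L).filter (fun a => (n + a).Prime)).card)).card : ℝ) := by
    have h1 := Finset.card_eq_sum_card_fiberwise (f := fun n => n % Wm X)
      (s := ω.Q.filter (fun n => m ≤ ((Icc 1 L).filter (fun a => (n + a).Prime)).card))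
      (t := range (Wm X)) (fun n _ => by
        rw [mem_coe, mem_range]
        exact Nat.mod_lt _ (primorial_pos _))
    rw [h1]
    push_cast
    refine Finset.sum_congr rfl fun b _ => ?_
    unfold WI
    rw [Finset.filter_filter, Finset.filter_filter]
    congr 2
    ext n
    simp only [and_comm]
  rw [← hsum]
  have hsum2 : ∑ b ∈ range (Wm X), (r0 / 2) ^ (2 * N) * c ^ 2 / CR * (ω.H / Wm X) =
      (r0 / 2) ^ (2 * N) * c ^ 2 / CR * ω.H := by
    rw [Finset.sum_const, card_range, nsmul_eq_mul]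
    field_simp
  rw [← hsum2]
  exact Finset.sum_le_sum fun b hb => hclass b (mem_range.1 hb)

end Pool.Agent.L7h97.BP
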