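import Pool.Agent.L7h18.BP.Gen
import Pool.Agent.L7h97.BP.Cla

/-!
# Project BP: clusters with prescribed composite surroundings (S_CLP)
-/

set_option autoImplicit false

open Finset Filter

namespace Pool.Agent.L7h97.BP

open Pool.Agent.H361R2.PP
open Pool.Agent.W70.HR (Bw rU xh qh Fam S_MLA S_PT S_MV)
open Pool.Agent.L7h18.BP

/-- many groups with a prime give many primes -/
theorem primes_ge' (T K m n : ℕ) (S : Finset ℕ) (r : ℝ) (H' : Fin T → Fin K → ℕ)
    (hr : (m : ℝ) ≤ r * T)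
    (hinj : Function.Injective (fun x : Fin T × Fin K => H' x.1 x.2))
    (hL : ∀ g i, H' g i ∈ S)
    [DecidablePred (fun g : Fin T => ∃ i, (n + H' g i).Prime)]
    [DecidablePred (fun h : ℕ => (n + h).Prime)]
    (h : r * T ≤ (((univ : Finset (Fin T)).filter (fun g => ∃ i, (n + H' g i).Prime)).card : ℝ)) :
    m ≤ (S.filter (fun a => (n + a).Prime)).card := by
  classical
  have h1 : m ≤ ((univ : Finset (Fin T)).filter (fun g => ∃ i, (n + H' g i).Prime)).card := by
    exact_mod_cast hr.trans h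
  refine h1.trans ?_
  have h2 : ∀ g : Fin T, ∃ a : ℕ, (∃ i, (n + H' g i).Prime) → ∃ i, a = H' g i ∧ (n + a).Prime := by
    intro g
    by_cases hg : ∃ i, (n + H' g i).Prime
    · obtain ⟨i, hi⟩ := hg
      exact ⟨H' g i, fun _ => ⟨i, rfl, hi⟩⟩
    · exact ⟨0, fun h => absurd h hg⟩
  choose f hf using h2
  refine Finset.card_le_card_of_injOn f ?_ ?_
  · intro g hg
    obtain ⟨i, hi, hp⟩ := hf g (mem_filter.1 hg).2
    rw [mem_coe, mem_filter]
    exact ⟨hi ▸ hL g i, hp⟩
  · intro g hg g' hg' hgg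
    obtain ⟨i, hi, -⟩ := hf g (mem_filter.1 hg).2
    obtain ⟨i', hi', -⟩ := hf g' (mem_filter.1 hg').2
    have := @hinj (g, i) (g', i') (by show H' g i = H' g' i'; rw [← hi, ← hi']; exact hgg)
    exact (Prod.ext_iff.1 this).1

/-- the class modulo `Wm X` -/
theorem b_exists' (H : Finset ℕ) (D : ℕ) (hH : Adm H) : ∃ M : ℕ, ∀ X : ℕ, M ≤ HH X →
    ∃ b < Wm X, (∀ h ∈ H, (b + h).Coprime (Wm X)) ∧
      ∀ j ≤ D, j ∉ H → ∃ p : ℕ, p.Prime ∧ p ≤ M ∧ p ∣ Wm X ∧ p ∣ b + j := by
  classical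
  choose a ha using hH
  set M0 : ℕ := D + H.sup id with hM0
  set q : ℕ → ℕ := fun j => Nat.nth Nat.Prime (M0 + j) with hq
  have hqp : ∀ j, (q j).Prime := fun j => Nat.prime_nth_prime _
  have hqge : ∀ j, M0 + j + 2 ≤ q j := fun j => Nat.add_two_le_nth_prime _
  have hqinj : Function.Injective q := by
    intro i j hij
    have := Nat.nth_injective Nat.infinite_setOfPred_prime hij
    omega
  have hqmono : ∀ j ≤ D, q j ≤ q D := fun j hj =>
    Nat.nth_monotone Nat.infinite_setOfPred_prime (by omega)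
  have hsup : ∀ h ∈ H, h ≤ H.sup id := fun h hh => Finset.le_sup (f := id) hh
  refine ⟨q D, fun X hX => ?_⟩
  set r : ℕ → ℕ := fun p => if hp : ∃ j, j ≤ D ∧ j ∉ H ∧ q j = p then (p - 1) * hp.choose
    else (if hpp : p.Prime then a p hpp else 0) with hr
  have hr1 : ∀ j, j ≤ D → j ∉ H → r (q j) = (q j - 1) * j := by
    intro j hj hjH
    have hex : ∃ j', j' ≤ D ∧ j' ∉ H ∧ q j' = q j := ⟨j, hj, hjH, rfl⟩
    have h1 : r (q j) = (q j - 1) * hex.choose := by
      rw [hr]
      exact dif_pos hex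
    rw [h1]
    congr 1
    exact hqinj hex.choose_spec.2.2
  have hr2 : ∀ p (hp : p.Prime), (¬ ∃ j, j ≤ D ∧ j ∉ H ∧ q j = p) → r p = a p hp := by
    intro p hp hne
    rw [hr]
    simp only
    rw [dif_neg hne, dif_pos hp]
  -- Chinese remainder theorem
  obtain ⟨k, hk⟩ := Nat.chineseRemainderOfFinset r id ((range (HH X + 1)).filter Nat.Prime)
    (fun p hp => (mem_filter.1 hp).2.ne_zero) (by
      intro p hp p' hp' hne
      rw [mem_coe, mem_filter] at hp hp'
      exact (Nat.coprime_primes hp.2 hp'.2).2 hne)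
  have hW : 0 < Wm X := primorial_pos _
  have hWd : ∀ p : ℕ, p.Prime → p ≤ HH X → p ∣ Wm X := by
    intro p hp hpH
    unfold Wm primorial
    refine Finset.dvd_prod_of_mem (fun p => p) ?_
    rw [mem_filter, mem_range]
    exact ⟨by omega, hp⟩
  have hb : ∀ p : ℕ, p.Prime → p ≤ HH X → ∀ j, (p ∣ k % Wm X + j ↔ p ∣ r p + j) := by
    intro p hp hpH j
    have h1 : k ≡ r p [MOD p] := hk p (by rw [mem_filter, mem_range]; exact ⟨by omega, hp⟩)
    have h2 : k % Wm X ≡ r p [MOD p] := by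
      have h3 : (k % Wm X) % p = k % p := Nat.mod_mod_of_dvd k (hWd p hp hpH)
      unfold Nat.ModEq
      rw [h3]
      exact h1
    have h3 : k % Wm X + j ≡ r p + j [MOD p] := h2.add_right j
    exact h3.dvd_iff dvd_rfl
  refine ⟨k % Wm X, Nat.mod_lt _ hW, ?_, ?_⟩
  · intro h hh
    unfold Wm primorial
    refine Nat.Coprime.prod_right fun p hp => ?_
    rw [mem_filter, mem_range] at hp
    refine ((Nat.Prime.coprime_iff_not_dvd hp.2).2 ?_).symm
    intro hd
    have h1 := (hb p hp.2 (by omega) h).1 hd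
    by_cases hex : ∃ j, j ≤ D ∧ j ∉ H ∧ q j = p
    · obtain ⟨j, hj, hjH, rfl⟩ := hex
      rw [hr1 j hj hjH] at h1
      have h2 : ((q j : ℕ) : ℤ) ∣ (h : ℤ) - j := by
        have h3 : ((q j : ℕ) : ℤ) ∣ (((q j - 1) * j + h : ℕ) : ℤ) := by exact_mod_cast h1
        have h4 : (((q j - 1) * j + h : ℕ) : ℤ) = (q j : ℤ) * j + (h - j) := by
          push_cast [Nat.cast_sub (hqp j).one_le]
          ring
        rw [h4] at h3
        exact (dvd_add_right (Dvd.intro _ rfl)).1 h3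
      have h5 : (h : ℤ) - j ≠ 0 := by
        intro h6
        apply hjH
        have : h = j := by omega
        rwa [← this]
      have h6 := Int.le_of_dvd (abs_pos.2 h5) ((dvd_abs _ _).2 h2)
      have h7 := hqge j
      have h8 := hsup h hh
      have h9 : |(h : ℤ) - j| ≤ (h : ℤ) + j := by
        rw [abs_le]
        omega
      omega
    · rw [hr2 p hp.2 hex] at h1
      exact ha p hp.2 h hh h1
  · intro j hj hjH
    refine ⟨q j, hqp j, hqmono j hj, hWd _ (hqp j) ((hqmono j hj).trans hX), ?_⟩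
    rw [hb (q j) (hqp j) ((hqmono j hj).trans hX), hr1 j hj hjH]
    refine ⟨j, ?_⟩
    have h1 := (hqp j).one_le
    obtain ⟨t, ht⟩ := Nat.exists_eq_add_of_le h1
    rw [ht]
    have h2 : 1 + t - 1 = t := by omega
    rw [h2]
    ring

theorem s_CLP (hMT : S_MTW) : S_CLP := by
  classical
  intro ϑ c₀ m hϑ hϑ2 hc₀
  obtain ⟨T, hT, hTm⟩ := groups ϑ c₀ m hϑ hc₀
  obtain ⟨K, hK, hMT1⟩ := hMT ϑ c₀ hϑ hϑ2 hc₀ T hT
  set N : ℕ := T * K with hN
  refine ⟨N, ?_⟩
  intro H D hH hH1 hHN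
  obtain ⟨δ, c, hδ, hδ8, hc, K', A', X1, hX1⟩ := hMT1 1 0 one_pos
  obtain ⟨cv, hcv, hmv⟩ := mv
  obtain ⟨X2, hX2⟩ := hmv δ hδ (by linarith)
  obtain ⟨M, hM⟩ := b_exists' H D hH
  have hlog := tendsto_log.eventually_ge_atTop (max 1 ((H.sup id : ℕ) : ℝ))
  obtain ⟨X3, hX3⟩ := eventually_atTop.1 (hlog.and ((tendsto_HH.eventually_ge_atTop M).and
    (eventually_ge_atTop (max 16 (M + 1)))))
  -- positions
  obtain ⟨e⟩ : Nonempty ((Fin T × Fin K) ↪ H) := by
    refine Function.Embedding.nonempty_of_card_le ?_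
    simpa using hHN
  set H' : Fin T → Fin K → ℕ := fun g i => (e (g, i) : ℕ) with hH'
  have hHC : ∀ g i, H' g i ∈ H := fun g i => (e (g, i)).2
  have hinj : Function.Injective (fun x : Fin T × Fin K => H' x.1 x.2) := by
    rintro ⟨g, i⟩ ⟨g', i'⟩ h
    exact e.injective (Subtype.ext h)
  refine ⟨N + 1, K', A', max X1 (max X2 X3), c * cv ^ N, by positivity, ?_⟩
  intro X hX ω hω
  have hXa : X1 ≤ X := (le_max_left _ _).trans hX
  have hXb : X2 ≤ X := (le_max_left _ _).trans ((le_max_right _ _).trans hX)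
  have hXc : X3 ≤ X := (le_max_right _ _).trans ((le_max_right _ _).trans hX)
  obtain ⟨hl, hHM, hX16⟩ := hX3 X hXc
  have hX16' : 16 ≤ X := (le_max_left _ _).trans hX16
  have hXM : M + 1 ≤ X := (le_max_right _ _).trans hX16
  have hl1 : 1 ≤ Real.log X := (le_max_left _ _).trans hl
  have hl0 : 0 < Real.log X := by linarith
  have hlC : ((H.sup id : ℕ) : ℝ) ≤ Real.log X := (le_max_right _ _).trans hl
  obtain ⟨b, hb, hbc, hbj⟩ := hM X hHM
  have hmem : ∀ g i, H' g i ∈ Bw 1 X b := by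
    intro g i
    unfold Bw BB
    rw [mem_filter, mem_Icc]
    refine ⟨⟨hH1 _ (hHC g i), ?_⟩, hbc _ (hHC g i)⟩
    refine Nat.le_floor ?_
    rw [one_mul]
    have h1 : H' g i ≤ H.sup id := Finset.le_sup (f := id) (hHC g i)
    exact le_trans (by exact_mod_cast h1) hlC
  obtain ⟨hV, -, hhits⟩ := hX1 X hXa ω hω b hb
  have hh := hhits H' hmem hinj
  -- hits are in the set
  have hsub : hitsW ω δ (c₀ * ϑ / 800) X b T K H' ≤ (ω.Q.filter (Pat m H D)).card := by
    unfold hitsW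
    refine Finset.card_le_card ?_
    intro n hn
    rw [mem_filter] at hn ⊢
    obtain ⟨hn1, hn2, hn3⟩ := hn
    unfold Pool.Agent.L7h18.BP.WI at hn1
    obtain ⟨hnQ, hnb⟩ := mem_filter.1 hn1
    refine ⟨hnQ, ?_, ?_⟩
    · exact primes_ge' T K m n H _ H' hTm hinj hHC hn3
    · intro j hj hjp
      by_contra hjH
      obtain ⟨p, hp, hpM, hpW, hpb⟩ := hbj j hj hjH
      have h1 : p ∣ n + j := by
        have h2 : n % p = b % p := by
          rw [← hnb]
          exact (Nat.mod_mod_of_dvd n hpW).symm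
        have h3 : n + j ≡ b + j [MOD p] := Nat.ModEq.add_right j h2
        exact (h3.dvd_iff dvd_rfl).2 hpb
      have h2 := (Nat.prime_dvd_prime_iff_eq hp hjp).1 h1
      have h3 := hω.1.2.2.1 hnQ
      rw [mem_Ico] at h3
      omega
  have hsub' : (hitsW ω δ (c₀ * ϑ / 800) X b T K H' : ℝ) ≤
      ((ω.Q.filter (Pat m H D)).card : ℝ) := by
    exact_mod_cast hsub
  refine le_trans ?_ (hh.trans hsub')
  -- lower bound of the expected number
  have hWpos : (0 : ℝ) < Wm X := by exact_mod_cast primorial_pos _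
  have hHpos : 0 < ω.H := hω.1.1
  have hWl : (Wm X : ℝ) ≤ Real.log X := by
    refine (Pool.Agent.H325R2.wtx.1 X hX16').trans ?_
    calc Real.log X ^ (7 / 20 : ℝ) ≤ Real.log X ^ (1 : ℝ) :=
          Real.rpow_le_rpow_of_exponent_le hl1 (by norm_num)
      _ = Real.log X := Real.rpow_one _
  have hVl : cv / Real.log X ≤ VV δ X := by
    have h1 := hX2 X hXb
    have h2 : ((Nat.totient (Wm X) : ℝ) / Wm X) ≤ 1 := by
      rw [div_le_one hWpos]
      exact_mod_cast Nat.totient_le _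
    rw [div_le_iff₀ hl0]
    have h3 : VV δ X * ((Nat.totient (Wm X) : ℝ) / Wm X) ≤ VV δ X := by
      have := mul_le_mul_of_nonneg_left h2 hV.le
      linarith
    have h4 : VV δ X * ((Nat.totient (Wm X) : ℝ) / Wm X) * (δ * Real.log X) ≤
        VV δ X * (1 * Real.log X) := by
      refine mul_le_mul h3 ?_ (by positivity) hV.le
      exact mul_le_mul_of_nonneg_right (by linarith) hl0.le
    linarith
  unfold WOm
  have e1 : cv ^ N / Real.log X ^ N ≤ VV δ X ^ N := by
    rw [← div_pow]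
    exact pow_le_pow_left₀ (by positivity) hVl N
  have e2 : ω.H / Real.log X ≤ ω.H / Wm X :=
    div_le_div_of_nonneg_left hHpos.le hWpos hWl
  have e3 : ω.H / Real.log X * (cv ^ N / Real.log X ^ N) ≤ ω.H / Wm X * VV δ X ^ N :=
    mul_le_mul e2 e1 (by positivity) (by positivity)
  calc c * cv ^ N * ω.H / Real.log X ^ (N + 1)
      = c * (ω.H / Real.log X * (cv ^ N / Real.log X ^ N)) := by
        rw [pow_succ]
        field_simp
    _ ≤ c * (ω.H / Wm X * VV δ X ^ N) := mul_le_mul_of_nonneg_left e3 hc.le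

end Pool.Agent.L7h97.BP
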